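import Pool.Agent.AHH.Defs
import Pool.Agent.AND2B.Top
import Pool.Agent.Helper61_ANP.Psi

/-!
# AND2B (MP_1906c1_mp): the potentials `om`, `Psi`, `Phi`
-/

set_option autoImplicit false

open Finset

open scoped BigOperators

noncomputable section

namespace Pool.Agent.AHH.H61

open Pool.Agent.BED (Tor)
open Pool.Agent.ANP (Geo GeoOk)
open Pool.Agent.AFJ (ind)
open Pool.Agent.AND2B (Gt)

section gen

variable {X : Type} [Fintype X] [DecidableEq X] (Γ : Geo X)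

theorem om_pos (n : ℕ) (B x : X) : 0 < om Γ n B x := Real.exp_pos _

theorem om_le (n : ℕ) (B x : X) : om Γ n B x ≤ Real.exp 2 := by
  unfold om
  rw [Real.exp_le_exp]
  have : (0 : ℝ) ≤ (Γ.D x B : ℝ) / Γ.L n := by positivity
  linarith

/-- `om` is at least one near the block -/
theorem one_le_om (n : ℕ) (B x : X) (h : Γ.D x B ≤ 2 * Γ.L n) : 1 ≤ om Γ n B x := by
  unfold om
  rw [Real.one_le_exp_iff]
  rcases Nat.eq_zero_or_pos (Γ.L n) with h0 | h0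
  · rw [h0]
    simp
  · have h1 : (0 : ℝ) < Γ.L n := by exact_mod_cast h0
    have h2 : (Γ.D x B : ℝ) ≤ 2 * Γ.L n := by exact_mod_cast h
    rw [sub_nonneg, div_le_iff₀ h1]
    exact h2

/-- `om` far from the block -/
theorem om_far (n : ℕ) (B x : X) (κ : ℝ) (h : κ ≤ om Γ n B x) (hκ : 0 < κ) (hL : 0 < Γ.L n) :
    (Γ.D x B : ℝ) ≤ (2 - Real.log κ) * Γ.L n := by
  unfold om at h
  have h1 := (Real.log_le_iff_le_exp hκ).2 h
  have h2 : (0 : ℝ) < Γ.L n := by exact_mod_cast hL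
  rw [← div_le_iff₀ h2]
  linarith

/-- `om` varies slowly -/
theorem om_lip (hD : ∀ x y z, Γ.D x z ≤ Γ.D x y + Γ.D y z) (hc : ∀ x y, Γ.D x y = Γ.D y x)
    (n : ℕ) (B x y : X) :
    om Γ n B x ≤ Real.exp ((Γ.D x y : ℝ) / Γ.L n) * om Γ n B y := by
  unfold om
  rw [← Real.exp_add, Real.exp_le_exp]
  have h1 : (Γ.D y B : ℝ) ≤ Γ.D x y + Γ.D x B := by
    have h2 := hD y x B
    rw [hc y x] at h2
    exact_mod_cast h2
  have h3 : (Γ.D y B : ℝ) / Γ.L n ≤ (Γ.D x y : ℝ) / Γ.L n + (Γ.D x B : ℝ) / Γ.L n := by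
    rw [← add_div]
    exact div_le_div_of_nonneg_right h1 (by positivity)
  linarith

theorem Psi_nonneg (n : ℕ) (P : Finset X) (x : X) : 0 ≤ Psi Γ n P x :=
  sum_nonneg fun B _ => (om_pos Γ n B x).le

theorem Psi_mono (n : ℕ) {P P' : Finset X} (h : P ⊆ P') (x : X) : Psi Γ n P x ≤ Psi Γ n P' x := by
  unfold Psi
  exact sum_le_sum_of_subset_of_nonneg (filter_subset_filter _ h)
    fun B _ _ => (om_pos Γ n B x).le

@[simp] theorem Psi_empty (n : ℕ) (x : X) : Psi Γ n ∅ x = 0 := by simp [Psi]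

/-- the only representative in the block `B` is `B` -/
theorem reps_blk (n : ℕ) (B : X) (hB : Γ.bl n B = B) :
    (Γ.blk n B).filter (fun B' => Γ.bl n B' = B') = {B} := by
  ext y
  unfold Geo.blk
  rw [mem_filter, mem_filter, mem_singleton]
  constructor
  · rintro ⟨⟨_, h1⟩, h2⟩
    rw [← h2, h1]
  · rintro rfl
    exact ⟨⟨mem_univ _, hB⟩, hB⟩

/-- one more block -/
theorem Psi_union (n : ℕ) (P : Finset X) (B : X) (hB : Γ.bl n B = B)
    (h : Disjoint P (Γ.blk n B)) (x : X) :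
    Psi Γ n (P ∪ Γ.blk n B) x = Psi Γ n P x + om Γ n B x := by
  unfold Psi
  rw [filter_union, sum_union (disjoint_filter_filter h), reps_blk Γ n B hB, sum_singleton]

/-- one more block, without disjointness -/
theorem Psi_union_le (n : ℕ) (P : Finset X) (B : X) (hB : Γ.bl n B = B) (x : X) :
    Psi Γ n (P ∪ Γ.blk n B) x ≤ Psi Γ n P x + om Γ n B x := by
  unfold Psi
  rw [filter_union, reps_blk Γ n B hB]
  have h1 := sum_union_inter (s₁ := P.filter fun B' => Γ.bl n B' = B') (s₂ := ({B} : Finset X))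
    (f := fun B' => om Γ n B' x)
  have h2 : 0 ≤ ∑ B' ∈ (P.filter fun B' => Γ.bl n B' = B') ∩ ({B} : Finset X), om Γ n B' x :=
    sum_nonneg fun B' _ => (om_pos Γ n B' x).le
  rw [sum_singleton] at h1
  linarith

theorem Phi_nonneg (τ : ℝ) (hτ : 0 ≤ τ) (n : ℕ) (P : Finset X) (x : X) : 0 ≤ Phi Γ τ n P x := by
  unfold Phi
  have h1 : 0 ≤ ind P x := by
    unfold ind
    split_ifs <;> norm_num
  have h2 : 0 ≤ ∑ y ∈ P, Real.exp (-((Γ.D x y : ℝ) / Γ.ρ n)) :=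
    sum_nonneg fun _ _ => (Real.exp_pos _).le
  have := mul_nonneg hτ h2
  linarith

theorem Phi_mono (τ : ℝ) (hτ : 0 ≤ τ) (n : ℕ) {P P' : Finset X} (h : P ⊆ P') (x : X) :
    Phi Γ τ n P x ≤ Phi Γ τ n P' x := by
  unfold Phi
  have h1 : ind P x ≤ ind P' x := by
    unfold ind
    split_ifs with h1 h2 h3
    · exact le_rfl
    · exact absurd (h h1) h2
    · norm_num
    · exact le_rfl
  have h2 : ∑ y ∈ P, Real.exp (-((Γ.D x y : ℝ) / Γ.ρ n)) ≤
      ∑ y ∈ P', Real.exp (-((Γ.D x y : ℝ) / Γ.ρ n)) :=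
    sum_le_sum_of_subset_of_nonneg h fun _ _ _ => (Real.exp_pos _).le
  have := mul_le_mul_of_nonneg_left h2 hτ
  linarith

@[simp] theorem Phi_empty (τ : ℝ) (n : ℕ) (x : X) : Phi Γ τ n ∅ x = 0 := by simp [Phi, ind]

/-- one more cluster -/
theorem Phi_union (τ : ℝ) (n : ℕ) (P P' : Finset X) (h : Disjoint P P') (x : X) :
    Phi Γ τ n (P ∪ P') x = Phi Γ τ n P x + Phi Γ τ n P' x := by
  unfold Phi
  rw [sum_union h]
  have h1 : ind (P ∪ P') x = ind P x + ind P' x := by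
    unfold ind
    by_cases h2 : x ∈ P
    · have h3 : x ∉ P' := fun h3 => (disjoint_left.1 h) h2 h3
      simp [h2, h3]
    · by_cases h3 : x ∈ P' <;> simp [h2, h3]
  rw [h1]
  ring

/-- the increment on the cluster -/
theorem one_le_Phi (τ : ℝ) (hτ : 0 ≤ τ) (n : ℕ) (P : Finset X) (x : X) (h : x ∈ P) :
    1 ≤ Phi Γ τ n P x := by
  unfold Phi
  have h1 : ind P x = 1 := by simp [ind, h]
  have h2 : 0 ≤ ∑ y ∈ P, Real.exp (-((Γ.D x y : ℝ) / Γ.ρ n)) :=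
    sum_nonneg fun _ _ => (Real.exp_pos _).le
  have := mul_nonneg hτ h2
  rw [h1]
  linarith

/-- the increment far from the cluster -/
theorem exp_le_Phi (τ : ℝ) (hτ : 0 ≤ τ) (n : ℕ) (P : Finset X) (x y : X) (h : y ∈ P) :
    τ * Real.exp (-((Γ.D x y : ℝ) / Γ.ρ n)) ≤ Phi Γ τ n P x := by
  unfold Phi
  have h1 : 0 ≤ ind P x := by
    unfold ind
    split_ifs <;> norm_num
  have h2 : Real.exp (-((Γ.D x y : ℝ) / Γ.ρ n)) ≤
      ∑ y ∈ P, Real.exp (-((Γ.D x y : ℝ) / Γ.ρ n)) :=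
    single_le_sum (f := fun y => Real.exp (-((Γ.D x y : ℝ) / Γ.ρ n)))
      (fun _ _ => (Real.exp_pos _).le) h
  have := mul_le_mul_of_nonneg_left h2 hτ
  linarith

end gen

/-! ### On the torus -/

/-- the bound of the potentials -/
def cpd (d : ℕ) : ℝ :=
  Real.exp 2 * (Real.exp (1 / ((d : ℝ) + 1)) * (2 / (1 - Real.exp (-(1 / ((d : ℝ) + 1)))))) ^ d

theorem one_le_cpd (d : ℕ) : 1 ≤ cpd d := by
  unfold cpd
  have hd : (0 : ℝ) < (d : ℝ) + 1 := by positivity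
  have h1 : (1 : ℝ) ≤ Real.exp 2 := Real.one_le_exp (by norm_num)
  have h2 : (1 : ℝ) ≤ Real.exp (1 / ((d : ℝ) + 1)) := Real.one_le_exp (by positivity)
  have h3 : Real.exp (-(1 / ((d : ℝ) + 1))) < 1 := by
    rw [Real.exp_lt_one_iff]
    have : 0 < 1 / ((d : ℝ) + 1) := by positivity
    linarith
  have h4 := Real.exp_pos (-(1 / ((d : ℝ) + 1)))
  have h5 : (1 : ℝ) ≤ 2 / (1 - Real.exp (-(1 / ((d : ℝ) + 1)))) := by
    rw [le_div_iff₀ (by linarith)]
    linarith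
  have h6 : (1 : ℝ) ≤ Real.exp (1 / ((d : ℝ) + 1)) *
      (2 / (1 - Real.exp (-(1 / ((d : ℝ) + 1))))) := by nlinarith
  have h7 := one_le_pow₀ (n := d) h6
  nlinarith

/-- the potential of the blocks is bounded -/
theorem Psi_le (d μ : ℕ) (l ρ : ℕ → ℕ) (J N n : ℕ) (P : Finset (Tor d (2 ^ μ)))
    (x : Tor d (2 ^ μ)) : Psi (ANP.H61.geoT d μ l ρ J N) n P x ≤ cpd d := by
  classical
  have h1 := ANP.H61.psi_le d μ l ρ J N 1 one_pos n x
  refine (Psi_mono _ n (subset_univ P) x).trans ?_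
  unfold Psi cpd
  have h2 : ∀ B ∈ (univ.filter fun B => (ANP.H61.geoT d μ l ρ J N).bl n B = B :
      Finset (Tor d (2 ^ μ))), om (ANP.H61.geoT d μ l ρ J N) n B x = Real.exp 2 *
      Real.exp (-(1 * (((ANP.H61.geoT d μ l ρ J N).D x B : ℝ) /
        ((ANP.H61.geoT d μ l ρ J N).L n : ℝ)))) := by
    intro B _
    unfold om
    rw [← Real.exp_add]
    congr 1
    ring
  rw [sum_congr rfl h2, ← mul_sum]
  exact mul_le_mul_of_nonneg_left h1 (Real.exp_pos _).le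

theorem Psi_le_Gt (d μ J N : ℕ) (l r : ℕ → ℕ) (n : ℕ) (P : Finset (Tor d (2 ^ μ)))
    (x : Tor d (2 ^ μ)) : Psi (Gt d μ J N l r) n P x ≤ cpd d := Psi_le d μ l _ J N n P x

/-- the sum over all the sites of `exp (-D/ρ)` -/
theorem site_sum (d μ : ℕ) (l ρ : ℕ → ℕ) (J N n : ℕ) (hρ : 1 ≤ ρ n) (x : Tor d (2 ^ μ)) :
    ∑ y, Real.exp (-(((ANP.H61.geoT d μ l ρ J N).D x y : ℝ) / (ANP.H61.geoT d μ l ρ J N).ρ n)) ≤
      (12 * ((d : ℝ) + 1) * ρ n) ^ d := by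
  classical
  have hd : (0 : ℝ) < (d : ℝ) + 1 := by positivity
  have hρ' : (1 : ℝ) ≤ ρ n := by exact_mod_cast hρ
  have hρ0 : (0 : ℝ) < ρ n := by linarith
  have h1 := ANP.H61.psi_le d μ (fun _ => 0) ρ J N (1 / (ρ n : ℝ)) (by positivity) n x
  have h2 : (univ.filter fun B => (ANP.H61.geoT d μ (fun _ => 0) ρ J N).bl n B = B :
      Finset (Tor d (2 ^ μ))) = univ := by
    refine filter_true_of_mem fun B _ => ?_
    funext i
    show ANP.H61.rnd 0 (B i) = B i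
    unfold ANP.H61.rnd
    rw [pow_zero, Nat.div_one, mul_one, ZMod.natCast_zmod_val]
  have h3 : ∑ y, Real.exp (-(((ANP.H61.geoT d μ l ρ J N).D x y : ℝ) /
      (ANP.H61.geoT d μ l ρ J N).ρ n)) = ∑ B ∈ (univ.filter fun B =>
        (ANP.H61.geoT d μ (fun _ => 0) ρ J N).bl n B = B : Finset (Tor d (2 ^ μ))),
      Real.exp (-(1 / (ρ n : ℝ) * (((ANP.H61.geoT d μ (fun _ => 0) ρ J N).D x B : ℝ) /
        ((ANP.H61.geoT d μ (fun _ => 0) ρ J N).L n : ℝ)))) := by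
    rw [h2]
    refine sum_congr rfl fun y _ => ?_
    congr 2
    show ((ANP.H61.sd x y : ℕ) : ℝ) / ((ρ n : ℕ) : ℝ) =
      1 / (ρ n : ℝ) * (((ANP.H61.sd x y : ℕ) : ℝ) / ((2 ^ 0 : ℕ) : ℝ))
    rw [pow_zero, Nat.cast_one, div_one]
    ring
  rw [h3]
  refine h1.trans ?_
  set y : ℝ := 1 / (ρ n : ℝ) / ((d : ℝ) + 1) with hy
  have hy0 : 0 < y := by positivity
  have hy1 : y ≤ 1 := by
    rw [hy, div_div, div_le_one (by positivity)]
    have : (0 : ℝ) ≤ d := Nat.cast_nonneg d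
    nlinarith
  have h4 : Real.exp y ≤ 3 := by
    calc Real.exp y ≤ Real.exp 1 := Real.exp_le_exp.2 hy1
      _ ≤ 3 := by
        have := Real.exp_one_lt_d9
        linarith
  have h5 : y / 2 ≤ 1 - Real.exp (-y) := by
    have h6 : Real.exp (-y) ≤ 1 - y / 2 := by
      have h7 : Real.exp (-y) * Real.exp y = 1 := by
        rw [← Real.exp_add]
        simp
      have h8 := Real.add_one_le_exp y
      have h9 := Real.exp_pos (-y)
      have h10 : (1 - y / 2) * (1 + y) ≥ 1 := by nlinarith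
      have h11 : Real.exp (-y) * (1 + y) ≤ 1 := by nlinarith
      by_contra h12
      push Not at h12
      nlinarith
    linarith
  have h6 : 2 / (1 - Real.exp (-y)) ≤ 4 / y := by
    rw [div_le_div_iff₀ (by linarith) hy0]
    linarith
  have h7 : (4 : ℝ) / y = 4 * (((d : ℝ) + 1) * ρ n) := by
    rw [hy]
    field_simp
  have h8 : 0 ≤ 2 / (1 - Real.exp (-y)) := div_nonneg (by norm_num) (by linarith)
  calc (Real.exp y * (2 / (1 - Real.exp (-y)))) ^ d ≤ (3 * (4 * (((d : ℝ) + 1) * ρ n))) ^ d := by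
        rw [h7] at h6
        have := Real.exp_pos y
        gcongr
    _ = _ := by ring

/-- the potential of the clusters is bounded -/
theorem Phi_le (d μ : ℕ) (l ρ : ℕ → ℕ) (J N n : ℕ) (hρ : 1 ≤ ρ n) (τ : ℝ) (hτ : 0 ≤ τ)
    (h : τ * (12 * ((d : ℝ) + 1) * ρ n) ^ d ≤ 1) (P : Finset (Tor d (2 ^ μ)))
    (x : Tor d (2 ^ μ)) : Phi (ANP.H61.geoT d μ l ρ J N) τ n P x ≤ 2 := by
  classical
  refine (Phi_mono _ τ hτ n (subset_univ P) x).trans ?_
  unfold Phi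
  have h1 : ind (univ : Finset (Tor d (2 ^ μ))) x = 1 := by simp [ind]
  have h2 := mul_le_mul_of_nonneg_left (site_sum d μ l ρ J N n hρ x) hτ
  rw [h1]
  linarith

theorem Phi_le_Gt (d μ J N : ℕ) (l r : ℕ → ℕ) (n : ℕ) (τ : ℝ) (hτ : 0 ≤ τ)
    (h : τ * (12 * ((d : ℝ) + 1) * 2 ^ r n) ^ d ≤ 1) (P : Finset (Tor d (2 ^ μ)))
    (x : Tor d (2 ^ μ)) : Phi (Gt d μ J N l r) τ n P x ≤ 2 := by
  refine Phi_le d μ l (fun n => 2 ^ r n) J N n Nat.one_le_two_pow τ hτ ?_ P x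
  push_cast
  exact h

end Pool.Agent.AHH.H61
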