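import Pool.Agent.Helper34_KL2.Kil2
import Pool.Agent.Helper61_AND.Num
import Pool.Agent.AHH.Z

/-!
# The numeric conditions `KN3` hold for small `s`
-/

set_option autoImplicit false

open scoped BigOperators NNReal Matrix

noncomputable section

namespace Pool.Agent.AHH.H61

open Pool.Agent.AND.Num
open Pool.Agent.KL2
open Pool.Agent.CTC (CT fac)

/-- a dyadic number near `s ^ (-41/100)` -/
theorem exists_J {s : ℝ} (hs : 0 < s) (hs1 : s ≤ 1) :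
    ∃ J : ℕ, (4 : ℝ) ^ J ≤ s ^ (-(82 / 100) : ℝ) ∧ (1 / 2 : ℝ) ^ J ≤ 2 * s ^ (41 / 100 : ℝ) := by
  have h1 : 1 ≤ s ^ (-(41 / 100) : ℝ) :=
    Real.one_le_rpow_of_pos_of_le_one_of_nonpos hs hs1 (by norm_num)
  obtain ⟨J, h2, h3⟩ := exists_nat_pow_near h1 (by norm_num : (1 : ℝ) < 2)
  refine ⟨J, ?_, ?_⟩
  · calc (4 : ℝ) ^ J = ((2 : ℝ) ^ J) ^ 2 := by
          rw [← pow_mul, mul_comm, pow_mul]
          norm_num
      _ ≤ (s ^ (-(41 / 100) : ℝ)) ^ 2 := by gcongr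
      _ = s ^ (-(82 / 100) : ℝ) := by
          rw [← Real.rpow_natCast, ← Real.rpow_mul hs.le]
          norm_num
  · have h4 : (0 : ℝ) < 2 ^ J := by positivity
    have h5 : s ^ (-(41 / 100) : ℝ) < 2 ^ J * 2 := by
      rw [pow_succ] at h3
      exact h3
    have h6 : s ^ (41 / 100 : ℝ) * s ^ (-(41 / 100) : ℝ) = 1 := by
      rw [← Real.rpow_add hs]
      norm_num
    have h7 : 0 < s ^ (41 / 100 : ℝ) := Real.rpow_pos_of_pos hs _
    rw [one_div, inv_pow, inv_le_iff_one_le_mul₀ h4, ← h6]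
    nlinarith

/-- the factor of the absorber lemma -/
theorem fac_le {d : ℕ} (hd : 3 ≤ d) {J : ℕ} {s a b : ℝ} (hs : 0 < s) (hs1 : s ≤ 1)
    (hJ : (4 : ℝ) ^ J ≤ s ^ (-(82 / 100) : ℝ)) (hJ2 : (1 / 2 : ℝ) ^ J ≤ 2 * s ^ (41 / 100 : ℝ))
    (ha : 102 / 100 ≤ a) (hb : -(21 / 100) ≤ b) :
    fac d J (s ^ a) (s ^ b) ≤ 3 * NAS.CS d * s ^ (1 / 5 : ℝ) := by
  have hC := NAS.CS_nonneg d
  have h0a : 0 < s ^ a := Real.rpow_pos_of_pos hs _
  have h0b : 0 < s ^ b := Real.rpow_pos_of_pos hs _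
  have h1 : (4 : ℝ) ^ J * s ^ a ≤ s ^ (1 / 5 : ℝ) := by
    calc (4 : ℝ) ^ J * s ^ a ≤ s ^ (-(82 / 100) : ℝ) * s ^ a :=
          mul_le_mul_of_nonneg_right hJ h0a.le
      _ = s ^ (-(82 / 100) + a : ℝ) := (Real.rpow_add hs _ _).symm
      _ ≤ s ^ (1 / 5 : ℝ) := rpow_anti hs hs1 (by linarith)
  have h2 : ((1 / 2 : ℝ) ^ (d - 2)) ^ J ≤ (1 / 2 : ℝ) ^ J := by
    have h3 : (1 / 2 : ℝ) ^ (d - 2) ≤ 1 / 2 := by
      calc (1 / 2 : ℝ) ^ (d - 2) ≤ (1 / 2 : ℝ) ^ 1 :=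
            pow_le_pow_of_le_one (by norm_num) (by norm_num) (by omega)
        _ = 1 / 2 := pow_one _
    exact pow_le_pow_left₀ (by positivity) h3 J
  have h3 : ((1 / 2 : ℝ) ^ (d - 2)) ^ J * s ^ b ≤ 2 * s ^ (1 / 5 : ℝ) := by
    calc ((1 / 2 : ℝ) ^ (d - 2)) ^ J * s ^ b ≤ (2 * s ^ (41 / 100 : ℝ)) * s ^ b :=
          mul_le_mul_of_nonneg_right (h2.trans hJ2) h0b.le
      _ = 2 * s ^ (41 / 100 + b : ℝ) := by
          rw [Real.rpow_add hs]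
          ring
      _ ≤ 2 * s ^ (1 / 5 : ℝ) :=
          mul_le_mul_of_nonneg_left (rpow_anti hs hs1 (by linarith)) (by norm_num)
  unfold fac
  nlinarith

theorem ct_aux (s x : ℝ) (hs : s ≠ 0) (hx : x ≠ 0) (m : ℕ) :
    96 / (s * x) ^ 2 * (16 / (s * x)) ^ m =
      96 / x ^ 2 * (16 / x) ^ m * ((s ^ 2)⁻¹ * (s ^ m)⁻¹) := by
  have h1 : 16 / (s * x) = 16 / x * s⁻¹ := by field_simp
  rw [h1, mul_pow (16 / x) s⁻¹ m, inv_pow, mul_pow s x 2]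
  field_simp

/-- the tail -/
theorem small_CT (d : ℕ) (c : ℝ) (hd : 3 ≤ d) (hc : 0 < c) :
    Small fun s => ∀ nS : ℕ, (nS : ℝ) ≤ 2 * s ^ (-(6 / 5) : ℝ) →
      CT d (s * c / (8 * d) / 16) * Real.exp (-(s ^ (-(1 / 2) : ℝ))) * nS ≤
        s ^ (5 * (d : ℝ) + 3) := by
  have hd0 : (0 : ℝ) < d := by
    have : 0 < d := by omega
    exact_mod_cast this
  set c₂ : ℝ := c / (8 * d) / 16 / d with hc₂
  have hc₂0 : 0 < c₂ := by positivity
  set K : ℝ := 96 / c₂ ^ 2 * (16 / c₂) ^ (2 * d) with hK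
  have hK0 : 0 < K := by positivity
  have h1 := small_exp_pow (2 * K) 1 (1 / 2) (2 + 2 * (d : ℝ) + 6 / 5) (5 * (d : ℝ) + 3) one_pos
    (by norm_num)
  refine h1.mono fun s hs h2 nS hn => ?_
  have e1 : s * c / (8 * d) / 16 / d = s * c₂ := by
    rw [hc₂]
    field_simp
  have e2 : CT d (s * c / (8 * d) / 16) = K * s ^ (-(2 + 2 * (d : ℝ))) := by
    unfold CT
    rw [e1, hK]
    have e3 : s ^ (-(2 + 2 * (d : ℝ))) = (s ^ 2)⁻¹ * (s ^ (2 * d))⁻¹ := by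
      rw [Real.rpow_neg hs.le, Real.rpow_add hs, mul_inv]
      congr 2
      · norm_num
      · rw [← Real.rpow_natCast]
        congr 1
        push_cast
        ring
    rw [e3]
    exact ct_aux s c₂ hs.ne' hc₂0.ne' (2 * d)
  rw [e2]
  have h3 : 0 < s ^ (-(2 + 2 * (d : ℝ))) := Real.rpow_pos_of_pos hs _
  have h4 : 0 < Real.exp (-(s ^ (-(1 / 2) : ℝ))) := Real.exp_pos _
  calc K * s ^ (-(2 + 2 * (d : ℝ))) * Real.exp (-(s ^ (-(1 / 2) : ℝ))) * nS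
      ≤ K * s ^ (-(2 + 2 * (d : ℝ))) * Real.exp (-(s ^ (-(1 / 2) : ℝ))) *
        (2 * s ^ (-(6 / 5) : ℝ)) := mul_le_mul_of_nonneg_left hn (by positivity)
    _ = 2 * K * s ^ (-(2 + 2 * (d : ℝ) + 6 / 5)) * Real.exp (-(1 * s ^ (-(1 / 2) : ℝ))) := by
        have e4 : s ^ (-(2 + 2 * (d : ℝ) + 6 / 5)) =
            s ^ (-(2 + 2 * (d : ℝ))) * s ^ (-(6 / 5) : ℝ) := by
          rw [← Real.rpow_add hs]
          congr 1
          ring
        rw [e4, one_mul]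
        ring
    _ ≤ _ := h2

/-- KN3 -/
theorem kn3 (d : ℕ) (c C : ℝ) (hd : 3 ≤ d) (hc : 0 < c) (hc2 : c ≤ 1 / 2) (hC : 1 ≤ C) :
    Small fun s => ∀ (w rho nQ : ℝ) (ρ clu kn rk : ℕ), s ≤ w → w ≤ 1 → 0 ≤ rho →
      rho ≤ 1 / 8 → rho ≤ 1 / (8 * C) → 0 ≤ nQ → nQ ≤ s ^ (-(1 / 1000) : ℝ) →
      (clu : ℝ) ≤ s ^ (-(1 / 1000) : ℝ) →
      (kn : ℝ) ≤ s ^ (-(6 / 5) : ℝ) → (rk : ℝ) ≤ s ^ (-(8 / 5) : ℝ) →
      s ^ (-3 : ℝ) ≤ (ρ : ℝ) → ∃ Jc Jr : ℕ,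
        KN3 d (clu + kn) Jc Jr ρ rk (c / 2) (1 - 1 / (2 * C))
          (c * w ^ (8 * es - 1)) (4 * C ^ 3 / w) rho (s ^ (1 / 100 : ℝ)) (s ^ (5 * (d : ℝ)))
          (s * (c / 2)) (s * (c / 2) / (8 * d)) (Real.exp (-(s ^ (-(1 / 2) : ℝ)))) nQ
          (s ^ (1033 / 1000 : ℝ)) (s ^ (33 / 1000 : ℝ)) (s ^ (-(1 / 5) : ℝ))
          (s ^ (1024 / 1000 : ℝ)) (s ^ (24 / 1000 : ℝ)) (s ^ (-(201 / 1000) : ℝ))
          (s ^ (33 / 2000 : ℝ)) (s ^ (31 / 2000 : ℝ)) := by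
  have hd0 : (0 : ℝ) < d := by
    have : 0 < d := by omega
    exact_mod_cast this
  have hCS := NAS.CS_nonneg d
  have hC0 : 0 < C := by linarith
  set A : ℝ := (2 + 32 * (d : ℝ) ^ 2 * 2) * (4 * C) with hA
  have B0 := small_le 1 one_pos
  have B1 := small_pow (A + 8) (33 / 2000) (31 / 2000) (by norm_num)
  have B2 := (small_pow' (2 + 32 * (d : ℝ) ^ 2 * 2) (1 / 2) (33 / 2000) (31 / 2000)
    (by norm_num) (by norm_num)).and
    (small_pow' (24 * NAS.CS d) (1 / 2) (1 / 5 - 33 / 2000) (31 / 2000) (by norm_num)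
      (by norm_num))
  have B3 := (small_pow' 8 (1 / 4) (23 / 1000) (1 / 100) (by norm_num) (by norm_num)).and
    (small_pow' 4 (1 / 4) (29 / 2000) (1 / 100) (by norm_num) (by norm_num))
  have B4 := small_CT d (c / 2) hd (by positivity)
  have B5 := (small_pow' (6 * NAS.CS d) (c / 4) (1 / 5 - 1 / 1000) (8 * es + 1 / 100)
    (by positivity) (by norm_num [es])).and
    (small_pow' (8 * C ^ 3) (c / 4) (29 / 2000) (8 * es + 1 / 100)
      (by positivity) (by norm_num [es]))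
  have B6 := (small_pow' (32 / c ^ 2) (1 / 2) 2 (1 / 100) (by norm_num) (by norm_num)).and
    (small_pow' 2 (c / 2) 3 (8 * es + 1 / 100) (by positivity) (by norm_num [es]))
  have B7 := (small_pow 4 (-(8 / 5)) (-3) (by norm_num)).and
    (small_const (2 / (c / 2 / (8 * d) / 16 / (4 * d))) 2 (by norm_num))
  have B8 := (small_rpow_le (1 / 16) (1 / 100) (by norm_num) (by norm_num)).and
    (small_rpow_le (1 / (16 * C)) (1 / 100) (by positivity) (by norm_num))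
  refine (((((((((B0.and B1).and B2).and B3).and B4).and B5).and B6).and B7).and B8)).mono
    fun s hs h => ?_
  obtain ⟨⟨⟨⟨⟨⟨⟨⟨B0, B1⟩, B2, B2'⟩, B3, B3'⟩, B4⟩, B5, B5'⟩, B6, B6'⟩, B7, B7'⟩, B8, B8'⟩ := h
  intro w rho nQ ρ clu kn rk hsw hw1 hr0 hr1 hr2 hQ0 hQ hclu hkn hrk hρ
  have hw : 0 < w := lt_of_lt_of_le hs hsw
  have rp : ∀ p : ℝ, 0 < s ^ p := fun p => Real.rpow_pos_of_pos hs p
  have anti : ∀ {p q : ℝ}, q ≤ p → s ^ p ≤ s ^ q := fun h => rpow_anti hs B0 h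
  have le1 : ∀ {p : ℝ}, 0 ≤ p → s ^ p ≤ 1 := fun h => Real.rpow_le_one hs.le B0 h
  have ad : ∀ p q : ℝ, s ^ p * s ^ q = s ^ (p + q) := fun p q => (Real.rpow_add hs p q).symm
  obtain ⟨J, hJ, hJ2⟩ := exists_J hs B0
  have hf : fac d J (s ^ (1033 / 1000 : ℝ)) (s ^ (-(1 / 5) : ℝ)) ≤
      3 * NAS.CS d * s ^ (1 / 5 : ℝ) := fac_le hd hs B0 hJ hJ2 (by norm_num) (by norm_num)
  have hf1 : fac d J (s ^ (1024 / 1000 : ℝ)) (s ^ (-(201 / 1000) : ℝ)) ≤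
      3 * NAS.CS d * s ^ (1 / 5 : ℝ) := fac_le hd hs B0 hJ hJ2 (by norm_num) (by norm_num)
  have hf0 : 0 ≤ fac d J (s ^ (1024 / 1000 : ℝ)) (s ^ (-(201 / 1000) : ℝ)) :=
    CTC.fac_nonneg d J (rp _).le (rp _).le
  -- the bond weights
  have hwes : s ^ (8 * es) ≤ w ^ (8 * es) :=
    Real.rpow_le_rpow hs.le hsw (by norm_num [es])
  have hD0 : c * s ^ (8 * es) * (1 / w) ≤ c * w ^ (8 * es - 1) := by
    have e1 : w ^ (8 * es - 1) = w ^ (8 * es) * (1 / w) := by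
      rw [Real.rpow_sub hw, Real.rpow_one]
      ring
    rw [e1, mul_assoc]
    have : 0 ≤ 1 / w := by positivity
    have := mul_le_mul_of_nonneg_right hwes this
    nlinarith
  have hw1' : 1 ≤ 1 / w := by
    rw [le_div_iff₀ hw]
    linarith
  have hD0' : c * s ^ (8 * es) ≤ c * w ^ (8 * es - 1) := by
    refine le_trans ?_ hD0
    have := mul_pos hc (rp (8 * es))
    nlinarith
  have hD1 : (4 : ℝ) ≤ 4 * C ^ 3 / w := by
    rw [le_div_iff₀ hw]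
    have h1 : (1 : ℝ) ≤ C ^ 3 := one_le_pow₀ hC
    nlinarith
  have hu2 : 2 / (1 - (1 - 1 / (2 * C))) = 4 * C := by
    field_simp
    ring
  have hnS : (((clu + kn : ℕ)) : ℝ) ≤ 2 * s ^ (-(6 / 5) : ℝ) := by
    push_cast
    have := anti (p := -(1 / 1000)) (q := -(6 / 5)) (by norm_num)
    linarith
  have hX := B4 (clu + kn) hnS
  set X : ℝ := CT d (s * (c / 2) / (8 * d) / 16) * Real.exp (-(s ^ (-(1 / 2) : ℝ))) *
    ((clu + kn : ℕ) : ℝ) with hXd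
  have hXs : s ^ (5 * (d : ℝ) + 3) = s ^ (5 * (d : ℝ)) * s ^ (3 : ℝ) := Real.rpow_add hs _ _
  rw [hXs] at hX
  refine ⟨J, J, ?_⟩
  refine
    { heps := ⟨rp _, le1 (by norm_num)⟩
      hu₀ := ⟨?_, ?_⟩
      hD := ⟨mul_pos hc (Real.rpow_pos_of_pos hw _), ?_⟩
      hrho := hr0
      htau := ⟨rp _, le1 (by positivity)⟩
      hnR := (rp _).le
      b1 := ⟨by linarith, ?_⟩
      hu := (rp _).le
      u1 := ?_
      u2 := ?_
      n1 := ?_
      n2 := ?_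
      n3 := ?_
      n4 := ?_
      r1 := ?_
      r2 := ?_ }
  · have h1 : 1 / (2 * C) ≤ 1 := by
      rw [div_le_one (by positivity)]
      linarith
    linarith
  · have : 0 < 1 / (2 * C) := by positivity
    linarith
  · -- `D₀ ≤ D₁`
    rw [le_div_iff₀ hw, mul_assoc]
    have h6 : w ^ (8 * es - 1) * w = w ^ (8 * es) := by
      nth_rewrite 2 [← Real.rpow_one w]
      rw [← Real.rpow_add hw]
      congr 1
      ring
    have h7 : w ^ (8 * es) ≤ 1 := Real.rpow_le_one hw.le hw1 (by norm_num [es])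
    rw [h6]
    have h8 : (1 : ℝ) ≤ C ^ 3 := one_le_pow₀ hC
    have h9 : 0 ≤ w ^ (8 * es) := Real.rpow_nonneg hw.le _
    nlinarith
  · have h1 : (1 - (1 - 1 / (2 * C))) / 2 = 1 / (4 * C) := by
      field_simp
      ring
    rw [h1]
    have h2 : 1 / (4 * C) = 1 / (8 * C) + 2 * (1 / (16 * C)) := by
      field_simp
      norm_num
    rw [h2]
    linarith
  · rw [hu2]
    have e1 : 8 / s ^ (33 / 2000 : ℝ) * s ^ (33 / 1000 : ℝ) = 8 * s ^ (33 / 2000 : ℝ) := by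
      have e2 : s ^ (33 / 1000 : ℝ) = s ^ (33 / 2000 : ℝ) * s ^ (33 / 2000 : ℝ) := by
        rw [ad]
        norm_num
      rw [e2]
      have := rp (33 / 2000)
      field_simp
    rw [e1]
    have e3 : s ^ (33 / 2000 : ℝ) * ((2 + 32 * (d : ℝ) ^ 2 * 2) * (4 * C)) +
        8 * s ^ (33 / 2000 : ℝ) = (A + 8) * s ^ (33 / 2000 : ℝ) := by
      rw [hA]
      ring
    rw [e3]
    exact B1
  · set D₁ : ℝ := 4 * C ^ 3 / w with hD₁
    have h1 : 8 / s ^ (33 / 2000 : ℝ) * fac d J (s ^ (1033 / 1000 : ℝ)) (s ^ (-(1 / 5) : ℝ)) ≤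
        24 * NAS.CS d * s ^ (1 / 5 - 33 / 2000 : ℝ) := by
      have e1 : s ^ (1 / 5 - 33 / 2000 : ℝ) = s ^ (1 / 5 : ℝ) / s ^ (33 / 2000 : ℝ) :=
        Real.rpow_sub hs _ _
      rw [e1, div_mul_eq_mul_div, ← mul_div_assoc]
      refine div_le_div_of_nonneg_right ?_ (rp _).le
      linarith
    have h2 := rp (31 / 2000)
    have h3 := rp (33 / 2000)
    nlinarith
  · have h1 : s ^ (24 / 1000 : ℝ) * nQ ≤ s ^ (23 / 1000 : ℝ) := by
      calc s ^ (24 / 1000 : ℝ) * nQ ≤ s ^ (24 / 1000 : ℝ) * s ^ (-(1 / 1000) : ℝ) :=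
            mul_le_mul_of_nonneg_left hQ (rp _).le
        _ = s ^ (23 / 1000 : ℝ) := by
            rw [ad]
            norm_num
    have h2 : s ^ (31 / 2000 : ℝ) * nQ ≤ s ^ (29 / 2000 : ℝ) := by
      calc s ^ (31 / 2000 : ℝ) * nQ ≤ s ^ (31 / 2000 : ℝ) * s ^ (-(1 / 1000) : ℝ) :=
            mul_le_mul_of_nonneg_left hQ (rp _).le
        _ = s ^ (29 / 2000 : ℝ) := by
            rw [ad]
            norm_num
    nlinarith
  · have h1 : 8 * X / (s * (c / 2) * (c / 2) * s ^ (5 * (d : ℝ))) ≤ 32 / c ^ 2 * s ^ (2 : ℝ) := by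
      rw [div_le_iff₀ (by have := rp (5 * (d : ℝ)); positivity)]
      have e1 : 32 / c ^ 2 * s ^ (2 : ℝ) * (s * (c / 2) * (c / 2) * s ^ (5 * (d : ℝ))) =
          8 * (s ^ (5 * (d : ℝ)) * (s ^ (2 : ℝ) * s)) := by
        field_simp
        ring
      have e2 : s ^ (2 : ℝ) * s = s ^ (3 : ℝ) := by
        nth_rewrite 2 [← Real.rpow_one s]
        rw [ad]
        norm_num
      rw [e1, e2]
      linarith
    linarith
  · set f := fac d J (s ^ (1024 / 1000 : ℝ)) (s ^ (-(201 / 1000) : ℝ)) with hfd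
    have h2 : s ^ (31 / 2000 : ℝ) * nQ ≤ s ^ (29 / 2000 : ℝ) := by
      calc s ^ (31 / 2000 : ℝ) * nQ ≤ s ^ (31 / 2000 : ℝ) * s ^ (-(1 / 1000) : ℝ) :=
            mul_le_mul_of_nonneg_left hQ (rp _).le
        _ = s ^ (29 / 2000 : ℝ) := by
            rw [ad]
            norm_num
    have h3 : f * nQ ≤ 3 * NAS.CS d * s ^ (1 / 5 - 1 / 1000 : ℝ) := by
      calc f * nQ ≤ (3 * NAS.CS d * s ^ (1 / 5 : ℝ)) * s ^ (-(1 / 1000) : ℝ) :=
            mul_le_mul hf1 hQ hQ0 (mul_nonneg (by positivity) (rp _).le)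
        _ = _ := by
            rw [mul_assoc, ad]
            norm_num
    have h4 : (2 * f + s ^ (31 / 2000 : ℝ) * (2 * (4 * C ^ 3 / w))) * nQ ≤
        (6 * NAS.CS d * s ^ (1 / 5 - 1 / 1000 : ℝ) + 8 * C ^ 3 * s ^ (29 / 2000 : ℝ)) *
          (1 / w) := by
      have e1 : (2 * f + s ^ (31 / 2000 : ℝ) * (2 * (4 * C ^ 3 / w))) * nQ =
          2 * (f * nQ) + 8 * C ^ 3 * (s ^ (31 / 2000 : ℝ) * nQ) * (1 / w) := by
        field_simp
        ring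
      rw [e1]
      have h5 : 8 * C ^ 3 * (s ^ (31 / 2000 : ℝ) * nQ) * (1 / w) ≤
          8 * C ^ 3 * s ^ (29 / 2000 : ℝ) * (1 / w) := by gcongr
      have h6 : 0 ≤ 6 * NAS.CS d * s ^ (1 / 5 - 1 / 1000 : ℝ) :=
        mul_nonneg (by positivity) (rp _).le
      have h7 : 2 * (f * nQ) ≤ 6 * NAS.CS d * s ^ (1 / 5 - 1 / 1000 : ℝ) * (1 / w) := by
        have h8 : 2 * (f * nQ) ≤ 6 * NAS.CS d * s ^ (1 / 5 - 1 / 1000 : ℝ) := by linarith
        nlinarith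
      linarith
    have h5 : c * w ^ (8 * es - 1) * s ^ (1 / 100 : ℝ) / 2 ≥
        (c * s ^ (8 * es) * (1 / w)) * s ^ (1 / 100 : ℝ) / 2 := by
      have := mul_le_mul_of_nonneg_right hD0 (rp (1 / 100)).le
      linarith
    have h6 : (c * s ^ (8 * es) * (1 / w)) * s ^ (1 / 100 : ℝ) / 2 =
        (c / 2 * s ^ (8 * es + 1 / 100)) * (1 / w) := by
      rw [Real.rpow_add hs]
      ring
    have h7 : (6 * NAS.CS d * s ^ (1 / 5 - 1 / 1000 : ℝ) + 8 * C ^ 3 * s ^ (29 / 2000 : ℝ)) *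
          (1 / w) ≤ (c / 2 * s ^ (8 * es + 1 / 100)) * (1 / w) := by
      refine mul_le_mul_of_nonneg_right ?_ (by positivity)
      linarith
    linarith
  · have h1 : 2 * X / s ^ (5 * (d : ℝ)) ≤ 2 * s ^ (3 : ℝ) := by
      rw [div_le_iff₀ (rp _)]
      linarith
    have h2 : c / 2 * s ^ (8 * es + 1 / 100) ≤ c * w ^ (8 * es - 1) * s ^ (1 / 100 : ℝ) / 2 := by
      rw [Real.rpow_add hs]
      have := mul_le_mul_of_nonneg_right hD0' (rp (1 / 100)).le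
      linarith
    linarith
  · have h1 : 4 * (rk : ℝ) ≤ (ρ : ℝ) := by linarith
    exact_mod_cast h1
  · have h1 : s * (c / 2) / (8 * d) / 16 / (4 * d) * (ρ : ℝ) =
        (c / 2 / (8 * d) / 16 / (4 * d)) * (s * (ρ : ℝ)) := by
      field_simp
    rw [h1]
    have h2 : s ^ (-2 : ℝ) ≤ s * (ρ : ℝ) := by
      have h3 : s ^ (-2 : ℝ) = s * s ^ (-3 : ℝ) := by
        nth_rewrite 2 [← Real.rpow_one s]
        rw [ad]
        norm_num
      rw [h3]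
      exact mul_le_mul_of_nonneg_left hρ hs.le
    have h4 : 0 < c / 2 / (8 * d) / 16 / (4 * d) := by positivity
    rw [div_le_iff₀ h4] at B7'
    nlinarith

end Pool.Agent.AHH.H61
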