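import Pool.Agent.Helper61_AHH.RegN

/-!
# AND2B (MP_1906c1_mp): the release step of the budget
-/

set_option autoImplicit false

open scoped BigOperators NNReal

noncomputable section

namespace Pool.Agent.AHH.H61

open Pool.Agent.BED (Tor)
open Pool.Agent.AND2B (Ev Fld)
open Pool.Agent.AND.Num

/-- the logarithmic factor of the change of the gauge -/
theorem small_reg (Cr Cw K p q : ℝ) (hCr : 0 ≤ Cr) (hCw : 1 ≤ Cw) (hK : 0 ≤ K) (h : q < p) :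
    Small fun s => Cr * (1 + Real.log (Cw * s ^ (-Cw))) * (K * s ^ p) ≤ s ^ q := by
  have h1 := small_pow' (Cr * (1 + Real.log Cw) * K) (1 / 2) p q (by norm_num) h
  have h2 := small_pow_log (2 * (Cr * Cw * K)) p q 1 h
  refine (h1.and h2).mono fun s hs h3 => ?_
  obtain ⟨h1, h2⟩ := h3
  have h4 : Real.log (Cw * s ^ (-Cw)) ≤ Real.log Cw + Cw * |Real.log s| := by
    rw [Real.log_mul (by linarith) (Real.rpow_pos_of_pos hs _).ne', Real.log_rpow hs]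
    have := neg_le_abs (Real.log s)
    have h5 : -Cw * Real.log s = Cw * (-Real.log s) := by ring
    rw [h5]
    have := mul_le_mul_of_nonneg_left this (by linarith : (0 : ℝ) ≤ Cw)
    linarith
  have h6 : 0 < s ^ p := Real.rpow_pos_of_pos hs _
  rw [pow_one] at h2
  calc Cr * (1 + Real.log (Cw * s ^ (-Cw))) * (K * s ^ p)
      ≤ Cr * (1 + (Real.log Cw + Cw * |Real.log s|)) * (K * s ^ p) := by
        have h7 : 0 ≤ K * s ^ p := by positivity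
        refine mul_le_mul_of_nonneg_right ?_ h7
        exact mul_le_mul_of_nonneg_left (by linarith) hCr
    _ = Cr * (1 + Real.log Cw) * K * s ^ p + 1 / 2 * (2 * (Cr * Cw * K) * |Real.log s| * s ^ p) := by
        ring
    _ ≤ s ^ q := by linarith

/-- the fourth power: `((A)^(1/4) + x s^(-1/4))^4 ≤ A (1 + 45 x s^(-1/16))` for `A ≥ s^(-3/4)/4` -/
theorem four_le {A s x : ℝ} (hs : 0 < s) (hA : 1 / 4 * s ^ (-(3 / 4) : ℝ) ≤ A) (hx : 0 ≤ x)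
    (hx1 : 3 * (x * s ^ (-(1 / 16) : ℝ)) ≤ 1) :
    (A ^ (1 / 4 : ℝ) + x * s ^ (-(1 / 4) : ℝ)) ^ 4 ≤ A * (1 + 45 * (x * s ^ (-(1 / 16) : ℝ))) := by
  have h0 : 0 < s ^ (-(3 / 4) : ℝ) := Real.rpow_pos_of_pos hs _
  have hA0 : 0 < A := by linarith
  have h1 : 0 < A ^ (1 / 4 : ℝ) := Real.rpow_pos_of_pos hA0 _
  -- `s^(-3/16) ≤ 3 A^(1/4)`
  have h2 : s ^ (-(3 / 16) : ℝ) ≤ 3 * A ^ (1 / 4 : ℝ) := by
    have h3 : s ^ (-(3 / 4) : ℝ) ≤ 4 * A := by linarith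
    have h4 := Real.rpow_le_rpow h0.le h3 (show (0 : ℝ) ≤ 1 / 4 by norm_num)
    rw [← Real.rpow_mul hs.le, Real.mul_rpow (by norm_num) hA0.le] at h4
    have h5 : (-(3 / 4) : ℝ) * (1 / 4) = -(3 / 16) := by norm_num
    rw [h5] at h4
    have h6 : (4 : ℝ) ^ (1 / 4 : ℝ) ≤ 3 := by
      calc (4 : ℝ) ^ (1 / 4 : ℝ) ≤ (4 : ℝ) ^ (1 / 2 : ℝ) :=
            Real.rpow_le_rpow_of_exponent_le (by norm_num) (by norm_num)
        _ = 2 := by
            rw [← Real.sqrt_eq_rpow, show (4 : ℝ) = 2 ^ 2 by norm_num, Real.sqrt_sq (by norm_num)]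
        _ ≤ 3 := by norm_num
    exact h4.trans (mul_le_mul_of_nonneg_right h6 h1.le)
  have h3 : s ^ (-(1 / 4) : ℝ) = s ^ (-(1 / 16) : ℝ) * s ^ (-(3 / 16) : ℝ) := by
    rw [← Real.rpow_add hs]
    congr 1
    norm_num
  have h4 : 0 < s ^ (-(1 / 16) : ℝ) := Real.rpow_pos_of_pos hs _
  set t : ℝ := 3 * (x * s ^ (-(1 / 16) : ℝ)) with ht
  have ht0 : 0 ≤ t := by positivity
  have h5 : x * s ^ (-(1 / 4) : ℝ) ≤ t * A ^ (1 / 4 : ℝ) := by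
    rw [h3, ht]
    have := mul_le_mul_of_nonneg_left h2 (show 0 ≤ x * s ^ (-(1 / 16) : ℝ) by positivity)
    linarith
  have h6 : 0 ≤ x * s ^ (-(1 / 4) : ℝ) := mul_nonneg hx (Real.rpow_nonneg hs.le _)
  calc (A ^ (1 / 4 : ℝ) + x * s ^ (-(1 / 4) : ℝ)) ^ 4
      ≤ (A ^ (1 / 4 : ℝ) + t * A ^ (1 / 4 : ℝ)) ^ 4 := by gcongr
    _ = (A ^ (1 / 4 : ℝ)) ^ 4 * (1 + t) ^ 4 := by ring
    _ = A * (1 + t) ^ 4 := by
        rw [← Real.rpow_natCast (A ^ (1 / 4 : ℝ)), ← Real.rpow_mul hA0.le]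
        norm_num
    _ ≤ A * (1 + 15 * t) := by
        refine mul_le_mul_of_nonneg_left ?_ hA0.le
        have h7 : t ^ 2 ≤ t := by nlinarith
        have h8 : t ^ 3 ≤ t := by
          have : t ^ 3 = t ^ 2 * t := by ring
          nlinarith
        have h9 : t ^ 4 ≤ t := by
          have : t ^ 4 = t ^ 3 * t := by ring
          nlinarith [pow_nonneg ht0 3]
        nlinarith
    _ = _ := by
        rw [ht]
        ring

/-- THE RELEASE STEP -/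
theorem stp_r (d : ℕ) (a c C : ℝ) (Cr Cw : ℝ) (hCr : 0 ≤ Cr) (hCw : 1 ≤ Cw) :
    Ev d a es c C fun V => ∀ n : ℕ, Stp (q1r V n) (qq V (n + 1) (V.kk (n + 1)))
      (V.cl (V.kk (n + 1)) : ℝ)
      (Cr * (1 + Real.log (Cw * (V.cl (V.kk (n + 1)) : ℝ) ^ (-Cw))) * (q1r V n).mis) := by
  -- the small facts about `s = sg (n + 1)`
  have h1 : Ev d a es c C fun V => ∀ s : ℝ, 0 < s → s ≤ V.w →
      (s ≤ 1 ∧ Cr * (1 + Real.log (Cw * s ^ (-Cw))) * (3 * s ^ (1 / 10 : ℝ)) ≤ s ^ (1 / 11 : ℝ)) ∧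
      (3 * s ^ (1 / 11 : ℝ) ≤ (1 - (V.th : ℝ) ^ (1 / 20 : ℝ)) * s ^ (1 / 20 : ℝ) ∧
      3 * s ^ (1 / 100 : ℝ) ≤ (1 - (V.th : ℝ) ^ (1 / 400 : ℝ)) * s ^ (1 / 400 : ℝ)) ∧
      (3 * s ^ (1 / 100 : ℝ) ≤ (1 - (V.th : ℝ) ^ kaf V.α) * s ^ (3 / 2 * kaf V.α) ∧
      3 * s ^ (1 / 100 : ℝ) ≤ (1 - (V.th : ℝ) ^ (kaf V.α / 4)) * s ^ (kaf V.α / 4)) ∧
      (45 * s ^ (1 / 11 - 1 / 16 : ℝ) ≤ s ^ (1 / 200 : ℝ) ∧
      5 * s ^ (1 / 200 : ℝ) ≤ (1 - (V.th : ℝ) ^ (1 / 400 : ℝ)) / 2 * s ^ (1 / 400 : ℝ) ∧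
      3 * s ^ (1 / 200 : ℝ) ≤ 1 / 2 * s ^ (0 : ℝ)) := by
    refine ev_small (fun th _ _ α _ s =>
      (s ≤ 1 ∧ Cr * (1 + Real.log (Cw * s ^ (-Cw))) * (3 * s ^ (1 / 10 : ℝ)) ≤ s ^ (1 / 11 : ℝ)) ∧
      (3 * s ^ (1 / 11 : ℝ) ≤ (1 - (th : ℝ) ^ (1 / 20 : ℝ)) * s ^ (1 / 20 : ℝ) ∧
      3 * s ^ (1 / 100 : ℝ) ≤ (1 - (th : ℝ) ^ (1 / 400 : ℝ)) * s ^ (1 / 400 : ℝ)) ∧
      (3 * s ^ (1 / 100 : ℝ) ≤ (1 - (th : ℝ) ^ kaf α) * s ^ (3 / 2 * kaf α) ∧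
      3 * s ^ (1 / 100 : ℝ) ≤ (1 - (th : ℝ) ^ (kaf α / 4)) * s ^ (kaf α / 4)) ∧
      (45 * s ^ (1 / 11 - 1 / 16 : ℝ) ≤ s ^ (1 / 200 : ℝ) ∧
      5 * s ^ (1 / 200 : ℝ) ≤ (1 - (th : ℝ) ^ (1 / 400 : ℝ)) / 2 * s ^ (1 / 400 : ℝ) ∧
      3 * s ^ (1 / 200 : ℝ) ≤ 1 / 2 * s ^ (0 : ℝ))) ?_
    intro th c₁ C₁ α J _ h3 _ hα
    have hk := kaf_pos α
    have hk2 := kaf_le hα
    have hth : ∀ {p : ℝ}, 0 < p → 0 < 1 - (th : ℝ) ^ p := fun hp => by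
      have := Real.rpow_lt_one (NNReal.coe_nonneg th) (by exact_mod_cast h3) hp
      linarith
    exact ((small_le 1 one_pos).and (small_reg Cr Cw 3 _ _ hCr hCw (by norm_num)
      (by norm_num))).and (((small_pow' 3 _ _ _ (hth (by norm_num)) (by norm_num)).and
      (small_pow' 3 _ _ _ (hth (by norm_num)) (by norm_num))).and
      (((small_pow' 3 _ _ _ (hth hk) (by linarith)).and
      (small_pow' 3 _ _ _ (hth (by linarith)) (by linarith))).and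
      ((small_pow 45 _ _ (by norm_num)).and
      ((small_pow' 5 _ _ _ (half_pos (hth (by norm_num))) (by norm_num)).and
      (small_pow' 3 _ _ _ (by norm_num) (by norm_num))))))
  refine (h1.and ev_good).imp fun V hV n => ?_
  obtain ⟨h1, hG⟩ := hV
  have hP : V.Pre a := hG.toPre
  set s : ℝ := (V.cl (V.kk (n + 1)) : ℝ) with hs
  have hs0 : 0 < s := cl_pos' hP _
  have hsg : V.sg (n + 1) = s := rfl
  obtain ⟨⟨s1, x1⟩, ⟨g1, g2⟩, ⟨g3, g4⟩, g5, g6, g7⟩ := h1 s hs0 (cl_le' hP _)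
  rw [Real.rpow_zero] at g7
  have hσ0 : 0 < V.sg n := sg_pos hP n
  have hth1 : (V.th : ℝ) ≤ 1 := by exact_mod_cast hP.th.2.le
  have hsσ : s ≤ V.sg n := by
    have h2 := sg_succ hP n
    rw [hsg] at h2
    nlinarith
  -- the gains
  have gain : ∀ {p : ℝ}, 0 < p → (1 - (V.th : ℝ) ^ p) * s ^ p ≤ V.sg n ^ p - s ^ p := by
    intro p hp
    have h2 := gr_rel' hP hp n
    rw [hsg] at h2
    have h3 := Real.rpow_le_rpow hs0.le hsσ hp.le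
    have h4 := th_rpow_lt hP hp
    nlinarith
  have pw : ∀ {p q : ℝ}, q ≤ p → s ^ p ≤ s ^ q := fun h => rpow_anti hs0 s1 h
  set x : ℝ := Cr * (1 + Real.log (Cw * s ^ (-Cw))) * (q1r V n).mis with hx
  have hmis : (q1r V n).mis ≤ 3 * s ^ (1 / 10 : ℝ) := by
    show s ^ (1 / 8 : ℝ) + 2 * s ^ (1 / 10 : ℝ) ≤ 3 * s ^ (1 / 10 : ℝ)
    have := pw (p := 1 / 8) (q := 1 / 10) (by norm_num)
    linarith
  have hmis0 : 0 ≤ (q1r V n).mis := by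
    show 0 ≤ s ^ (1 / 8 : ℝ) + 2 * s ^ (1 / 10 : ℝ)
    positivity
  have hlog : 0 ≤ 1 + Real.log (Cw * s ^ (-Cw)) := by
    have h2 : 1 ≤ Cw * s ^ (-Cw) := by
      have h3 : 1 ≤ s ^ (-Cw) := Real.one_le_rpow_of_pos_of_le_one_of_nonpos hs0 s1 (by linarith)
      nlinarith
    have := Real.log_nonneg h2
    linarith
  have hx0 : 0 ≤ x := by positivity
  have hx1 : x ≤ s ^ (1 / 11 : ℝ) := by
    refine le_trans ?_ x1
    exact mul_le_mul_of_nonneg_left hmis (mul_nonneg hCr hlog)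
  have hx100 : x ≤ s ^ (1 / 100 : ℝ) := hx1.trans (pw (by norm_num))
  refine
    { x1 := hx1.trans (Real.rpow_le_one hs0.le s1 (by norm_num))
      del := ?_
      mis := ?_
      lam := ?_
      tht := ?_
      eps := ?_
      rho := ?_ }
  · show gr V (1 / 20) n (V.kk (n + 1)) + 2 * s ^ (1 / 10 : ℝ) + x ≤
      gr V (1 / 20) (n + 1) (V.kk (n + 1))
    rw [gr_rel, hsg]
    have h2 := gain (p := 1 / 20) (by norm_num)
    have h3 := pw (p := 1 / 10) (q := 1 / 11) (by norm_num)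
    linarith
  · show x ^ 2 ≤ s ^ (1 / 8 : ℝ)
    calc x ^ 2 ≤ (s ^ (1 / 11 : ℝ)) ^ 2 := by gcongr
      _ = s ^ (2 / 11 : ℝ) := by
          rw [← Real.rpow_natCast, ← Real.rpow_mul hs0.le]
          norm_num
      _ ≤ s ^ (1 / 8 : ℝ) := pw (by norm_num)
  · set A0 : ℝ := 1 / 4 * s ^ (-(3 / 4) : ℝ) with hA0
    have hA0p : 0 < A0 := by positivity
    have hq : (q1r V n).lam = A0 * (2 - V.sg n ^ (1 / 400 : ℝ)) * (1 + 2 * s ^ (1 / 200 : ℝ)) := rfl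
    have hq' : (qq V (n + 1) (V.kk (n + 1))).lam = A0 * (2 - s ^ (1 / 400 : ℝ)) := rfl
    rw [hq, hq']
    set u : ℝ := V.sg n ^ (1 / 400 : ℝ) with hu
    set v : ℝ := s ^ (1 / 200 : ℝ) with hv
    set y : ℝ := s ^ (1 / 400 : ℝ) with hy
    have hu1 : u ≤ 1 := by
      refine Real.rpow_le_one hσ0.le ?_ (by norm_num)
      have hw1 : (V.w : ℝ) ≤ 1 := (h1 V.w (w_pos hP) le_rfl).1.1
      exact (sg_le hP n).trans hw1
    have hu0 : 0 ≤ u := Real.rpow_nonneg hσ0.le _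
    have hv0 : 0 ≤ v := Real.rpow_nonneg hs0.le _
    have hA : A0 ≤ A0 * (2 - u) * (1 + 2 * v) := by
      have : 1 ≤ (2 - u) * (1 + 2 * v) := by nlinarith
      nlinarith
    have hxs : x * s ^ (-(1 / 16) : ℝ) ≤ s ^ (1 / 11 - 1 / 16 : ℝ) := by
      have h2 : s ^ (1 / 11 - 1 / 16 : ℝ) = s ^ (1 / 11 : ℝ) * s ^ (-(1 / 16) : ℝ) := by
        rw [← Real.rpow_add hs0]
        congr 1
      rw [h2]
      exact mul_le_mul_of_nonneg_right hx1 (Real.rpow_nonneg hs0.le _)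
    have hx45 : 45 * (x * s ^ (-(1 / 16) : ℝ)) ≤ v := by linarith
    have hv1 : v ≤ 1 / 6 := by linarith
    have h3 := four_le hs0 hA hx0 (by
      have : 0 ≤ x * s ^ (-(1 / 16) : ℝ) := mul_nonneg hx0 (Real.rpow_nonneg hs0.le _)
      linarith)
    refine h3.trans ?_
    have h4 : A0 * (2 - u) * (1 + 2 * v) * (1 + 45 * (x * s ^ (-(1 / 16) : ℝ))) ≤
        A0 * (2 - u) * (1 + 2 * v) * (1 + v) := by
      have h5 : 0 ≤ A0 * (2 - u) * (1 + 2 * v) := hA0p.le.trans hA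
      exact mul_le_mul_of_nonneg_left (by linarith) h5
    refine h4.trans ?_
    have h5 := gain (p := 1 / 400) (by norm_num)
    have h6 : (2 - u) * (1 + 2 * v) * (1 + v) ≤ 2 - y := by
      have h7 : (1 + 2 * v) * (1 + v) ≤ 1 + 5 * v := by nlinarith
      have h8 : (2 - u) * ((1 + 2 * v) * (1 + v)) ≤ (2 - u) * (1 + 5 * v) :=
        mul_le_mul_of_nonneg_left h7 (by linarith)
      have h9 : (2 - u) * (1 + 5 * v) ≤ 2 - u + 10 * v := by nlinarith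
      have h10 : 10 * v ≤ u - y := by linarith
      nlinarith
    have h7 : A0 * (2 - u) * (1 + 2 * v) * (1 + v) = A0 * ((2 - u) * (1 + 2 * v) * (1 + v)) := by
      ring
    rw [h7]
    exact mul_le_mul_of_nonneg_left h6 hA0p.le
  · show gr V (1 / 400) n (V.kk (n + 1)) + 2 * s ^ (1 / 100 : ℝ) + x ≤
      gr V (1 / 400) (n + 1) (V.kk (n + 1))
    rw [gr_rel, hsg]
    have h2 := gain (p := 1 / 400) (by norm_num)
    linarith
  · show s ^ (ka V / 2) * (2 - V.sg n ^ ka V) + 2 * s ^ (1 / 100 : ℝ) + x ≤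
      s ^ (ka V / 2) * (2 - V.sg (n + 1) ^ ka V)
    rw [hsg]
    have hka : 0 < ka V := ka_pos
    have h2 := gain hka
    have h3 : 0 < s ^ (ka V / 2) := Real.rpow_pos_of_pos hs0 _
    have h4 := mul_le_mul_of_nonneg_left h2 h3.le
    have h5 : s ^ (3 / 2 * kaf V.α) = s ^ (ka V / 2) * s ^ ka V := by
      rw [← Real.rpow_add hs0, ← ka_eq]
      congr 1
      ring
    rw [h5, ← ka_eq] at g3
    nlinarith
  · show gr V (ka V / 4) n (V.kk (n + 1)) + 2 * s ^ (1 / 100 : ℝ) + x ≤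
      gr V (ka V / 4) (n + 1) (V.kk (n + 1))
    rw [gr_rel, hsg]
    have hka : 0 < ka V := ka_pos
    have h2 := gain (p := ka V / 4) (by linarith)
    rw [← ka_eq] at g4
    linarith

end Pool.Agent.AHH.H61
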