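import Pool.Agent.Helper61_AHH.Zn
import Pool.Agent.Helper72_AHH.RegDefs

/-!
# AND2B (MP_1906c1_mp): the numbers of REG
-/

set_option autoImplicit false

open scoped BigOperators NNReal

noncomputable section

namespace Pool.Agent.AHH.H61

open Pool.Agent.BED (Tor)
open Pool.Agent.AND2B (Ev Fld)
open Pool.Agent.AND.Num
open Pool.Agent.AHH.H16 (BudOk)

/-- the six inequalities of one step -/
structure Stp (q q' : Num) (s x : ℝ) : Prop where
  x1 : x ≤ 1
  del : q.del + x ≤ q'.del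
  mis : x ^ 2 ≤ q'.mis
  lam : (q.lam ^ (1 / 4 : ℝ) + x * s ^ (-(1 / 4) : ℝ)) ^ 4 ≤ q'.lam
  tht : q.tht + x ≤ q'.tht
  eps : q.eps + x ≤ q'.eps
  rho : q.rho + x ≤ q'.rho

/-- the numbers at the end of a stage, before the change of the gauge; `r` the ratio of the weights -/
def q1f {d : ℕ} (V : AND2B.Env d) (r : ℝ) (n k : ℕ) : Num where
  del := (qq V n k).del + (bud V).inc n k * cpd d
  mis := (qq V n k).mis + (bud V).inc n k * cpd d
  lam := (qq V n k).lam * (1 + (bud V).inL n k * cpd d)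
  tht := (bud V).thm n k + (bud V).inY n k * cpd d
  eps := (qq V n k).eps * r + (bud V).nn n k * cpd d
  rho := (qq V n k).rho + (bud V).nn n k * cpd d

/-- the numbers at the end of a release phase, before the change of the gauge -/
def q1r {d : ℕ} (V : AND2B.Env d) (n : ℕ) : Num where
  del := (qq V n (V.kk (n + 1))).del + 2 * (bud V).icR n
  mis := (qq V n (V.kk (n + 1))).mis + 2 * (bud V).icR n
  lam := (qq V n (V.kk (n + 1))).lam * (1 + 2 * (bud V).lR n)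
  tht := (qq V n (V.kk (n + 1))).tht + 2 * (bud V).yR n
  eps := (qq V n (V.kk (n + 1))).eps + 2 * (bud V).nR n
  rho := (qq V n (V.kk (n + 1))).rho + 2 * (bud V).nR n

/-- what is needed of the numbers before the change of the gauge -/
structure Bse (c : ℝ) (q : Num) : Prop where
  mis0 : 0 ≤ q.mis ∧ q.mis ≤ c / 2 / 4
  del0 : q.del ≤ 1
  lam0 : 0 ≤ q.lam
  th0 : 0 ≤ q.tht ∧ q.tht ≤ 1 / 2
  ep0 : 0 ≤ q.eps ∧ q.eps ≤ 1
  rh0 : 0 ≤ q.rho ∧ q.rho ≤ 1

/-- the other conditions of `RegH` -/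
theorem regH (d : ℕ) (a c C : ℝ) (hc : 0 < c) (hc2 : c ≤ 1 / 2) (hC : 1 ≤ C) :
    Ev d a es c C fun V => ∀ (n k : ℕ) (q : Num) (s x : ℝ), 0 < s → Bse c q →
      Stp q (qq V n k) s x → RegH (toE V c C) q (qq V n k) s x := by
  have h1 := ev_thr d a c C 0 (min (c / 2) (1 / (4 * C))) (lt_min (by positivity)
    (by positivity))
  have h2 : Ev d a es c C fun V => ∀ s : ℝ, 0 < s → s ≤ V.w → s ≤ 1 :=
    ev_small (fun _ _ _ _ _ s => s ≤ 1) fun _ _ _ _ _ _ _ _ _ => small_le 1 one_pos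
  refine ((h1.and h2).and ev_good).imp fun V hV n k q s x hs hb hS => ?_
  obtain ⟨⟨h1, h2⟩, hG⟩ := hV
  have hP : V.Pre a := hG.toPre
  have hw := w_pos hP
  have hw1 := h2 V.w hw le_rfl
  obtain ⟨_, h3, h4, _⟩ := h1 n k
  have m1 := min_le_left (c / 2) (1 / (4 * C))
  have m2 := min_le_right (c / 2) (1 / (4 * C))
  have hC0 : 0 < C := by linarith
  obtain ⟨g1, g2⟩ := hG.st.toStart.hc
  have h5 : 1 / (2 * C) ≤ 1 := by
    rw [div_le_one (by positivity)]
    linarith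
  refine
    { s0 := hs
      e0 := hG.e0
      D0 := ⟨mul_pos hc (Real.rpow_pos_of_pos hw _), ?_⟩
      u0 := by
        show 0 ≤ 1 - 1 / (2 * C)
        linarith
      mis0 := hb.mis0
      del0 := hb.del0
      lam0 := hb.lam0
      th0 := hb.th0
      ep0 := hb.ep0
      rh0 := hb.rh0
      x1 := hS.x1
      gc := ?_
      gC := ?_
      del := hS.del
      mis := hS.mis
      lam := hS.lam
      tht := hS.tht
      eps := hS.eps
      rho := hS.rho
      u1 := ?_ }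
  · show c * (V.w : ℝ) ^ (8 * es - 1) ≤ 4 * C ^ 3 / V.w
    rw [le_div_iff₀ hw, mul_assoc]
    have h6 : (V.w : ℝ) ^ (8 * es - 1) * V.w = (V.w : ℝ) ^ (8 * es) := by
      nth_rewrite 2 [← Real.rpow_one (V.w : ℝ)]
      rw [← Real.rpow_add hw]
      congr 1
      ring
    have h7 : (V.w : ℝ) ^ (8 * es) ≤ 1 := Real.rpow_le_one hw.le hw1 (by norm_num [es])
    rw [h6]
    have h8 : (1 : ℝ) ≤ C ^ 3 := one_le_pow₀ hC
    have h9 : 0 ≤ (V.w : ℝ) ^ (8 * es) := Real.rpow_nonneg hw.le _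
    nlinarith
  · show c / 2 + (qq V n k).del ≤ V.m.im
    linarith
  · show ‖V.m‖ + (qq V n k).del ≤ 2 * C
    linarith
  · show 1 - 1 / (2 * C) + (qq V n k).rho < 1
    have h6 : 1 / (4 * C) < 1 / (2 * C) := by
      rw [div_lt_div_iff₀ (by positivity) (by positivity)]
      linarith
    have h7 : (qq V n k).rho ≤ 1 / (4 * C) := by linarith
    linarith

/-- the numbers before the change of the gauge are small: stages -/
theorem bse_f (d : ℕ) (a c C : ℝ) (hc : 0 < c) (hc2 : c ≤ 1 / 2) (hC : 1 ≤ C) :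
    Ev d a es c C fun V => ∀ (r : ℝ) (n k : ℕ), 0 ≤ r → r ≤ 1 → n ≤ V.N → Bse c (q1f V r n k) := by
  have h1 := ev_thr d a c C (cpd d) (c / 16) (by positivity)
  refine ((budOk d a c C hc hC).and h1).imp fun V hV r n k hr hr1 hn => ?_
  obtain ⟨hB, h1⟩ := hV
  obtain ⟨t1, t2, t3, t4, t5, t6, t7, t8⟩ := h1 n k
  obtain ⟨q1, q2, q3, q4, q5⟩ := hB.q n k
  obtain ⟨i1, i2, i3, i4⟩ := hB.inc n k
  have hcp : 0 ≤ cpd d := by
    have := one_le_cpd d
    linarith
  have b1 : 0 ≤ (bud V).inc n k * cpd d := mul_nonneg i1 hcp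
  have b2 : 0 ≤ (bud V).inL n k * cpd d := mul_nonneg i2 hcp
  have b3 : 0 ≤ (bud V).inY n k * cpd d := mul_nonneg i3 hcp
  have b4 : 0 ≤ (bud V).nn n k * cpd d := mul_nonneg i4 hcp
  have e1 : (bud V).inc n k * cpd d = cpd d * (bud V).inc n k := mul_comm _ _
  have e3 : (bud V).inY n k * cpd d = cpd d * (bud V).inY n k := mul_comm _ _
  have e4 : (bud V).nn n k * cpd d = cpd d * (bud V).nn n k := mul_comm _ _
  have q1' : 0 ≤ (qq V n k).mis := q1
  have q2' : 0 ≤ (qq V n k).lam := q2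
  have q3' : 0 ≤ (qq V n k).tht := q3
  have q4' : 0 ≤ (qq V n k).eps := q4
  have q5' : (qq V n k).eps ≤ (qq V n k).rho := q5
  have hthm : 0 ≤ (bud V).thm n k := by
    show 0 ≤ (qq V n k).tht + (V.cl k : ℝ) ^ (1 / 16 : ℝ)
    have := Real.rpow_nonneg (NNReal.coe_nonneg (V.cl k)) (1 / 16 : ℝ)
    linarith
  have h2 : (qq V n k).eps * r ≤ (qq V n k).eps := by nlinarith
  have h3 : 0 ≤ (qq V n k).eps * r := mul_nonneg q4' hr
  exact
    { mis0 := ⟨by
        show 0 ≤ (qq V n k).mis + (bud V).inc n k * cpd d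
        linarith, by
        show (qq V n k).mis + (bud V).inc n k * cpd d ≤ c / 2 / 4
        linarith⟩
      del0 := by
        show (qq V n k).del + (bud V).inc n k * cpd d ≤ 1
        linarith
      lam0 := by
        show 0 ≤ (qq V n k).lam * (1 + (bud V).inL n k * cpd d)
        exact mul_nonneg q2' (by linarith)
      th0 := ⟨by
        show 0 ≤ (bud V).thm n k + (bud V).inY n k * cpd d
        linarith, by
        show (bud V).thm n k + (bud V).inY n k * cpd d ≤ 1 / 2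
        linarith⟩
      ep0 := ⟨by
        show 0 ≤ (qq V n k).eps * r + (bud V).nn n k * cpd d
        linarith, by
        show (qq V n k).eps * r + (bud V).nn n k * cpd d ≤ 1
        linarith⟩
      rh0 := ⟨by
        show 0 ≤ (qq V n k).rho + (bud V).nn n k * cpd d
        linarith, by
        show (qq V n k).rho + (bud V).nn n k * cpd d ≤ 1
        linarith⟩ }

/-- the numbers before the change of the gauge are small: release phases -/
theorem bse_r (d : ℕ) (a c C : ℝ) (hc : 0 < c) (hc2 : c ≤ 1 / 2) (hC : 1 ≤ C) :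
    Ev d a es c C fun V => ∀ n : ℕ, Bse c (q1r V n) := by
  have h1 := ev_thr d a c C 0 (c / 16) (by positivity)
  have h2 : Ev d a es c C fun V => ∀ s : ℝ, 0 < s → s ≤ V.w →
      2 * s ^ (1 / 10 : ℝ) ≤ c / 16 * s ^ (0 : ℝ) ∧ 2 * s ^ (1 / 100 : ℝ) ≤ c / 16 * s ^ (0 : ℝ) :=
    ev_small (fun _ _ _ _ _ s => 2 * s ^ (1 / 10 : ℝ) ≤ c / 16 * s ^ (0 : ℝ) ∧
      2 * s ^ (1 / 100 : ℝ) ≤ c / 16 * s ^ (0 : ℝ)) fun _ _ _ _ _ _ _ _ _ =>
        (small_pow' 2 (c / 16) _ _ (by positivity) (by norm_num)).and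
          (small_pow' 2 (c / 16) _ _ (by positivity) (by norm_num))
  refine (((budOk d a c C hc hC).and h1).and (h2.and ev_good)).imp fun V hV n => ?_
  obtain ⟨⟨hB, h1⟩, h2, hG⟩ := hV
  have hP : V.Pre a := hG.toPre
  obtain ⟨t1, t2, t3, t4, t5, t6, t7, t8⟩ := h1 n (V.kk (n + 1))
  obtain ⟨q1, q2, q3, q4, q5⟩ := hB.q n (V.kk (n + 1))
  obtain ⟨i1, i2, i3, i4, _⟩ := hB.icR n
  obtain ⟨g1, g2⟩ := h2 (V.sg (n + 1)) (sg_pos hP _) (sg_le hP _)
  rw [Real.rpow_zero] at g1 g2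
  have i1' : 0 ≤ (bud V).icR n := i1
  have i2' : 0 ≤ (bud V).lR n := i2
  have i3' : 0 ≤ (bud V).yR n := i3
  have i4' : 0 ≤ (bud V).nR n := i4
  have j1 : 2 * (bud V).icR n ≤ c / 16 := by
    show 2 * V.sg (n + 1) ^ (1 / 10 : ℝ) ≤ c / 16
    linarith
  have j3 : 2 * (bud V).yR n ≤ c / 16 := by
    show 2 * V.sg (n + 1) ^ (1 / 100 : ℝ) ≤ c / 16
    linarith
  have j4 : 2 * (bud V).nR n ≤ c / 16 := by
    show 2 * V.sg (n + 1) ^ (1 / 100 : ℝ) ≤ c / 16
    linarith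
  have q1' : 0 ≤ (qq V n (V.kk (n + 1))).mis := q1
  have q2' : 0 ≤ (qq V n (V.kk (n + 1))).lam := q2
  have q3' : 0 ≤ (qq V n (V.kk (n + 1))).tht := q3
  have q4' : 0 ≤ (qq V n (V.kk (n + 1))).eps := q4
  have q5' : (qq V n (V.kk (n + 1))).eps ≤ (qq V n (V.kk (n + 1))).rho := q5
  exact
    { mis0 := ⟨by
        show 0 ≤ (qq V n (V.kk (n + 1))).mis + 2 * (bud V).icR n
        linarith, by
        show (qq V n (V.kk (n + 1))).mis + 2 * (bud V).icR n ≤ c / 2 / 4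
        linarith⟩
      del0 := by
        show (qq V n (V.kk (n + 1))).del + 2 * (bud V).icR n ≤ 1
        linarith
      lam0 := by
        show 0 ≤ (qq V n (V.kk (n + 1))).lam * (1 + 2 * (bud V).lR n)
        exact mul_nonneg q2' (by linarith)
      th0 := ⟨by
        show 0 ≤ (qq V n (V.kk (n + 1))).tht + 2 * (bud V).yR n
        linarith, by
        show (qq V n (V.kk (n + 1))).tht + 2 * (bud V).yR n ≤ 1 / 2
        linarith⟩
      ep0 := ⟨by
        show 0 ≤ (qq V n (V.kk (n + 1))).eps + 2 * (bud V).nR n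
        linarith, by
        show (qq V n (V.kk (n + 1))).eps + 2 * (bud V).nR n ≤ 1
        linarith⟩
      rh0 := ⟨by
        show 0 ≤ (qq V n (V.kk (n + 1))).rho + 2 * (bud V).nR n
        linarith, by
        show (qq V n (V.kk (n + 1))).rho + 2 * (bud V).nR n ≤ 1
        linarith⟩ }

/-- the ratio of the weights in a stage: `r = (1 + th) / 2` (condition `hr` of `fia`) -/
theorem ratio (d : ℕ) (a c C : ℝ) (hc : 0 < c) :
    Ev d a es c C fun V => ∀ k, k ≤ V.kk (V.N + 1) → ∀ g : ℝ, c / 2 ≤ g →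
      V.e₀ + (V.cl (k + 1) : ℝ) * g ≤ (1 + (V.th : ℝ)) / 2 * (V.e₀ + (V.cl k : ℝ) * g) := by
  have h1 : Ev d a es c C fun V => V.e₀ ≤ c / 2 * V.sg (V.N + 1) := by
    refine ev_e0 (fun V => c / 2 * V.sg (V.N + 1)) (fun V hV => ?_) (fun V e₀ m ζ => rfl)
    exact mul_pos (by positivity) (sg_pos hV _)
  refine (h1.and ev_good).imp fun V hV k hk g hg => ?_
  obtain ⟨h1, hG⟩ := hV
  have hP : V.Pre a := hG.toPre
  have h2 : (V.cl (k + 1) : ℝ) = V.th * V.cl k := by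
    rw [cl_succ V k]
    push_cast
    rfl
  have h3 := sg_last hP hk
  have h4 : (V.th : ℝ) < 1 := by exact_mod_cast hP.th.2
  have h5 := cl_pos' hP k
  have h6 : c / 2 * V.sg (V.N + 1) ≤ g * V.cl k :=
    mul_le_mul hg h3 (sg_pos hP _).le (by linarith)
  rw [h2]
  have h7 : V.e₀ * (1 - (V.th : ℝ)) ≤ g * V.cl k * (1 - (V.th : ℝ)) :=
    mul_le_mul_of_nonneg_right (h1.trans h6) (by linarith)
  linarith

/-- `Im G₀ x x ≤ 2 C` -/
theorem im_G0 (d : ℕ) (a c C : ℝ) (hC : 1 ≤ C) :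
    Ev d a es c C fun V => ∀ x, ((toE V c C).G₀ x x).im ≤ (toE V c C).C₀ := by
  refine ev_good.imp fun V hG x => ?_
  show (LE.QD.rs (0 : Tor d (2 ^ V.μ) → ℝ) V.ζ x x).im ≤ 2 * C
  have h1 := hG.st.toStart.hG x x
  have h2 := Complex.im_le_norm (LE.QD.rs (0 : Tor d (2 ^ V.μ) → ℝ) V.ζ x x)
  linarith

end Pool.Agent.AHH.H61
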