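import Pool.Agent.Helper61_AHH.StpR

/-!
# AND2B (MP_1906c1_mp): the numbers of the field `rfin`
-/

set_option autoImplicit false

open scoped BigOperators NNReal

noncomputable section

namespace Pool.Agent.AHH.H61

open Pool.Agent.AND2B (Ev)

/-- REG can be used at the end of a release phase -/
theorem regRel (d : ℕ) (a c C : ℝ) (hc : 0 < c) (hc2 : c ≤ 1 / 2) (hC : 1 ≤ C) (Cr Cw : ℝ)
    (hCr : 0 ≤ Cr) (hCw : 1 ≤ Cw) :
    Ev d a es c C fun V => ∀ n : ℕ, RegH (toE V c C) (q1r V n) (qq V (n + 1) (V.kk (n + 1)))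
      (V.cl (V.kk (n + 1)) : ℝ)
      (Cr * (1 + Real.log (Cw * (V.cl (V.kk (n + 1)) : ℝ) ^ (-Cw))) * (q1r V n).mis) := by
  refine (((regH d a c C hc hc2 hC).and (stp_r d a c C Cr Cw hCr hCw)).and
    ((bse_r d a c C hc hc2 hC).and ev_good)).imp fun V hV n => ?_
  obtain ⟨⟨h1, h2⟩, h3, hG⟩ := hV
  exact h1 (n + 1) (V.kk (n + 1)) _ _ _ (cl_pos' hG.toPre _) (h3 n) (h2 n)

end Pool.Agent.AHH.H61
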